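import Mathlib

/-!
# The sparse bit-size of Fricke trace polynomials grows like `n ^ 4`

The Fricke polynomial of `a ^ M b ^ K (a b) ^ L` is an explicit combination of products
`U_i(x) U_j(y) U_k(z)` of Chebyshev polynomials. For the monomials of one parity class, the
coefficient is, up to sign, at least a binomial coefficient `C(i + a, a)`, hence at least `2 ^ a`.
So a cubic number of monomials have coefficients with a linear number of bits.
-/

open MvPolynomial

namespace Pool.Agent.Results.MP_9614a6_lc.QuarticGrowth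

/-! ### The definitions used in the statement -/

/-- The group `SL(2, ℂ)`. -/
abbrev SL2 : Type := Matrix.SpecialLinearGroup (Fin 2) ℂ

/-- The trace of an element of `SL(2, ℂ)`. -/
noncomputable def tr (A : SL2) : ℂ := Matrix.trace (A : Matrix (Fin 2) (Fin 2) ℂ)

/-- The value `w(A, B)` of the word `w` of the free group on two letters. -/
noncomputable def evalWord (w : FreeGroup (Fin 2)) (A B : SL2) : SL2 := FreeGroup.lift ![A, B] w

/-- `f` is the Fricke trace polynomial of `w`; the variables `0, 1, 2` are `x, y, z`. -/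
def IsFricke (w : FreeGroup (Fin 2)) (f : MvPolynomial (Fin 3) ℤ) : Prop :=
  ∀ A B : SL2, tr (evalWord w A B) = aeval ![tr A, tr B, tr (A * B)] f

/-- The total binary size of the nonzero coefficients of `f`; here `Nat.size m` is the length of
the binary expansion of `m`. -/
noncomputable def bitSize (f : MvPolynomial (Fin 3) ℤ) : ℕ :=
  ∑ m ∈ f.support, (f.coeff m).natAbs.size

/-- The cyclically reduced length of `w` is `n`. -/
def HasCycLength (w : FreeGroup (Fin 2)) (n : ℕ) : Prop :=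
  ∃ v : FreeGroup (Fin 2), IsConj w v ∧ FreeGroup.IsCyclicallyReduced v.toWord ∧
    v.toWord.length = n

/-- The binary sizes of the Fricke polynomials of the words of cyclically reduced length `n`. -/
def sizes (n : ℕ) : Set ℕ :=
  {s | ∃ w f, HasCycLength w n ∧ IsFricke w f ∧ bitSize f = s}

/-- The maximal binary size `S(n)`. -/
noncomputable def S (n : ℕ) : ℕ := sSup (sizes n)

/-! ### Bounds for coefficients and exponents -/

/-- All coefficients have absolute value at most `K`, and all exponents are at most `D`. -/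
def Bd (D K : ℕ) (f : MvPolynomial (Fin 3) ℤ) : Prop :=
  ∀ m, (f.coeff m).natAbs ≤ K ∧ (f.coeff m ≠ 0 → ∀ i, m i ≤ D)

lemma Bd.mono {D D' K K' : ℕ} {f : MvPolynomial (Fin 3) ℤ} (h : Bd D K f) (hD : D ≤ D')
    (hK : K ≤ K') : Bd D' K' f :=
  fun m => ⟨(h m).1.trans hK, fun h' i => ((h m).2 h' i).trans hD⟩

lemma Bd.neg {D K : ℕ} {f : MvPolynomial (Fin 3) ℤ} (h : Bd D K f) : Bd D K (-f) := by
  intro m
  rw [coeff_neg, Int.natAbs_neg]
  exact ⟨(h m).1, fun h' => (h m).2 (by simpa using h')⟩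

lemma Bd.add {D K K' : ℕ} {f g : MvPolynomial (Fin 3) ℤ} (h : Bd D K f) (h' : Bd D K' g) :
    Bd D (K + K') (f + g) := by
  intro m
  rw [coeff_add]
  refine ⟨(Int.natAbs_add_le _ _).trans (add_le_add (h m).1 (h' m).1), fun hne => ?_⟩
  by_cases h0 : f.coeff m = 0
  · exact (h' m).2 (by rw [h0, zero_add] at hne; exact hne)
  · exact (h m).2 h0

lemma Bd.X_mul {D K : ℕ} {f : MvPolynomial (Fin 3) ℤ} (h : Bd D K f) (i : Fin 3) :
    Bd (D + 1) K (X i * f) := by
  intro m
  rw [coeff_X_mul']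
  split_ifs with hi
  · refine ⟨(h _).1, fun hne j => ?_⟩
    have := (h _).2 hne j
    rw [Finsupp.tsub_apply] at this
    by_cases hj : i = j
    · subst hj
      rw [Finsupp.single_eq_same] at this
      omega
    · rw [Finsupp.single_eq_of_ne (Ne.symm hj)] at this
      omega
  · simp

lemma size_pow_le (n : ℕ) : Nat.size (5 ^ n) ≤ 3 * n + 1 := by
  rw [Nat.size_le]
  calc 5 ^ n ≤ 8 ^ n := Nat.pow_le_pow_left (by norm_num) n
    _ = 2 ^ (3 * n) := by rw [pow_mul]; norm_num
    _ < 2 ^ (3 * n + 1) := Nat.pow_lt_pow_right (by norm_num) (by omega)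

lemma Bd.bitSize_le {D K : ℕ} {f : MvPolynomial (Fin 3) ℤ} (h : Bd D K f) :
    bitSize f ≤ (D + 1) ^ 3 * K.size := by
  classical
  unfold bitSize
  have h1 : ∑ m ∈ f.support, (f.coeff m).natAbs.size ≤ f.support.card * K.size := by
    rw [← smul_eq_mul]
    exact Finset.sum_le_card_nsmul _ _ _ fun m _ => Nat.size_le_size (h m).1
  refine h1.trans (Nat.mul_le_mul_right _ ?_)
  have h2 : f.support.card ≤ (Fintype.piFinset fun _ : Fin 3 => Finset.range (D + 1)).card := by
    refine Finset.card_le_card_of_injOn (fun m i => m i) ?_ ?_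
    · intro m hm
      have hm' : f.coeff m ≠ 0 := by simpa using hm
      simp only [Finset.mem_coe, Fintype.mem_piFinset, Finset.mem_range]
      intro i
      have := (h m).2 hm' i
      omega
    · intro m _ m' _ hmm
      ext i
      exact congrFun hmm i
  rwa [Fintype.card_piFinset_const, Finset.card_range] at h2

/-! ### Existence of the Fricke polynomial, with bounds -/

/-- The matrix of an element of `SL(2, ℂ)`. -/
abbrev mat (A : SL2) : Matrix (Fin 2) (Fin 2) ℂ := (A : Matrix (Fin 2) (Fin 2) ℂ)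

lemma det_eq (A : SL2) : mat A 0 0 * mat A 1 1 - mat A 0 1 * mat A 1 0 = 1 := by
  have := A.2
  rwa [Matrix.det_fin_two] at this

lemma tr_eq (A : SL2) : tr A = mat A 0 0 + mat A 1 1 := Matrix.trace_fin_two _

lemma tr_mul_eq (A B : SL2) : tr (A * B) = mat A 0 0 * mat B 0 0 + mat A 0 1 * mat B 1 0 +
    (mat A 1 0 * mat B 0 1 + mat A 1 1 * mat B 1 1) := by
  rw [tr_eq]
  simp [mat, Matrix.mul_apply, Fin.sum_univ_two]

/-- The evaluation of a polynomial at the three traces. -/
noncomputable def ev (A B : SL2) (f : MvPolynomial (Fin 3) ℤ) : ℂ :=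
  aeval ![tr A, tr B, tr (A * B)] f

lemma ev_add (A B : SL2) (f g : MvPolynomial (Fin 3) ℤ) : ev A B (f + g) = ev A B f + ev A B g :=
  map_add _ _ _

lemma ev_sub (A B : SL2) (f g : MvPolynomial (Fin 3) ℤ) : ev A B (f - g) = ev A B f - ev A B g :=
  map_sub _ _ _

lemma ev_neg (A B : SL2) (f : MvPolynomial (Fin 3) ℤ) : ev A B (-f) = -ev A B f :=
  map_neg _ _

lemma ev_mul (A B : SL2) (f g : MvPolynomial (Fin 3) ℤ) : ev A B (f * g) = ev A B f * ev A B g :=
  map_mul _ _ _

lemma ev_X0 (A B : SL2) : ev A B (X 0) = tr A := by simp [ev]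

lemma ev_X1 (A B : SL2) : ev A B (X 1) = tr B := by simp [ev]

lemma ev_X2 (A B : SL2) : ev A B (X 2) = tr (A * B) := by simp [ev]

lemma ev_one (A B : SL2) : ev A B 1 = 1 := by simp [ev]

lemma ev_zero (A B : SL2) : ev A B 0 = 0 := by simp [ev]

/-- `W(A, B)` is a combination of `1, A, B, AB` with polynomial coefficients in the traces. -/
def Rep (n : ℕ) (W : SL2 → SL2 → Matrix (Fin 2) (Fin 2) ℂ) : Prop :=
  ∃ p q r s : MvPolynomial (Fin 3) ℤ, (Bd (2 * n) (5 ^ n) p ∧ Bd (2 * n) (5 ^ n) q ∧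
    Bd (2 * n) (5 ^ n) r ∧ Bd (2 * n) (5 ^ n) s) ∧ ∀ A B : SL2,
    W A B = ev A B p • 1 + ev A B q • mat A + ev A B r • mat B + ev A B s • (mat A * mat B)

lemma rep_one : Rep 0 fun _ _ => 1 := by
  refine ⟨1, 0, 0, 0, ⟨?_, ?_, ?_, ?_⟩, ?_⟩
  · intro m
    rw [coeff_one]
    split_ifs with h
    · subst h
      simp
    · simp
  · intro m
    simp
  · intro m
    simp
  · intro m
    simp
  · intro A B
    rw [ev_one, ev_zero]
    simp

/-- The matrix of a letter. -/
noncomputable def letterMat (l : Fin 2 × Bool) (A B : SL2) : SL2 :=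
  if l.2 then ![A, B] l.1 else (![A, B] l.1)⁻¹

lemma mat_inv (A : SL2) : mat A⁻¹ = !![mat A 1 1, -mat A 0 1; -mat A 1 0, mat A 0 0] := by
  simp [mat, Matrix.SpecialLinearGroup.coe_inv, Matrix.adjugate_fin_two]

lemma mat_eta (A : SL2) : mat A = !![mat A 0 0, mat A 0 1; mat A 1 0, mat A 1 1] :=
  Matrix.eta_fin_two _

lemma Rep.mul {n : ℕ} {W : SL2 → SL2 → Matrix (Fin 2) (Fin 2) ℂ} (h : Rep n W)
    (l : Fin 2 × Bool) : Rep (n + 1) fun A B => mat (letterMat l A B) * W A B := by
  obtain ⟨p, q, r, s, ⟨hp, hq, hr, hs⟩, hW⟩ := h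
  have hD : 2 * n ≤ 2 * (n + 1) := by omega
  have hD1 : 2 * n + 1 ≤ 2 * (n + 1) := by omega
  have hD2 : 2 * n + 1 + 1 ≤ 2 * (n + 1) := by omega
  have e0 : ∀ {f : MvPolynomial (Fin 3) ℤ}, Bd (2 * n) (5 ^ n) f → Bd (2 * (n + 1)) (5 ^ n) f :=
    fun h => h.mono hD le_rfl
  have e1 : ∀ {f : MvPolynomial (Fin 3) ℤ} (i : Fin 3), Bd (2 * n) (5 ^ n) f →
      Bd (2 * (n + 1)) (5 ^ n) (X i * f) := fun i h => (h.X_mul i).mono hD1 le_rfl
  have e2 : ∀ {f : MvPolynomial (Fin 3) ℤ} (i j : Fin 3), Bd (2 * n) (5 ^ n) f →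
      Bd (2 * (n + 1)) (5 ^ n) (X i * (X j * f)) :=
    fun i j h => ((h.X_mul j).X_mul i).mono hD2 le_rfl
  have hpow : 5 ^ (n + 1) = 5 ^ n + 5 ^ n + 5 ^ n + 5 ^ n + 5 ^ n := by ring
  have hpos : 0 < 5 ^ n := by positivity
  have f1 : ∀ {f : MvPolynomial (Fin 3) ℤ}, Bd (2 * (n + 1)) (5 ^ n) f →
      Bd (2 * (n + 1)) (5 ^ (n + 1)) f := fun h => h.mono le_rfl (by rw [hpow]; omega)
  have f2 : ∀ {f : MvPolynomial (Fin 3) ℤ}, Bd (2 * (n + 1)) (5 ^ n + 5 ^ n) f →
      Bd (2 * (n + 1)) (5 ^ (n + 1)) f := fun h => h.mono le_rfl (by rw [hpow]; omega)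
  have f3 : ∀ {f : MvPolynomial (Fin 3) ℤ}, Bd (2 * (n + 1)) (5 ^ n + 5 ^ n + 5 ^ n) f →
      Bd (2 * (n + 1)) (5 ^ (n + 1)) f := fun h => h.mono le_rfl (by rw [hpow]; omega)
  have f4 : ∀ {f : MvPolynomial (Fin 3) ℤ}, Bd (2 * (n + 1)) (5 ^ n + 5 ^ n + 5 ^ n + 5 ^ n) f →
      Bd (2 * (n + 1)) (5 ^ (n + 1)) f := fun h => h.mono le_rfl (by rw [hpow]; omega)
  have f5 : ∀ {f : MvPolynomial (Fin 3) ℤ},
      Bd (2 * (n + 1)) (5 ^ n + 5 ^ n + 5 ^ n + 5 ^ n + 5 ^ n) f →
      Bd (2 * (n + 1)) (5 ^ (n + 1)) f := fun h => h.mono le_rfl hpow.ge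
  obtain ⟨i, b⟩ := l
  fin_cases i <;> cases b
  · -- the letter `a⁻¹`
    refine ⟨X 0 * p + q, -p, X 0 * r + s, -r, ⟨f2 ((e1 0 hp).add (e0 hq)), f1 (e0 hp).neg,
      f2 ((e1 0 hr).add (e0 hs)), f1 (e0 hr).neg⟩, ?_⟩
    intro A B
    have hA := det_eq A
    simp only [letterMat, hW]
    simp only [Bool.false_eq_true, if_false, Fin.zero_eta, Matrix.cons_val_zero, ev_add, ev_mul,
      ev_neg, ev_X0]
    rw [mat_inv, tr_eq A]
    ext i j
    fin_cases i <;> fin_cases j <;>
      simp [Matrix.mul_apply, Fin.sum_univ_two] <;>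
      first
      | linear_combination (-(ev A B q) - ev A B s * (mat B 0 0)) * hA
      | linear_combination (ev A B q + ev A B s * (mat B 0 0)) * hA
      | linear_combination (-(ev A B s * (mat B 0 1))) * hA
      | linear_combination (ev A B s * (mat B 0 1)) * hA
      | linear_combination (-(ev A B s * (mat B 1 0))) * hA
      | linear_combination (ev A B s * (mat B 1 0)) * hA
      | linear_combination (-(ev A B q) - ev A B s * (mat B 1 1)) * hA
      | linear_combination (ev A B q + ev A B s * (mat B 1 1)) * hA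
  · -- the letter `a`
    refine ⟨-q, p + X 0 * q, -s, r + X 0 * s, ⟨f1 (e0 hq).neg, f2 ((e0 hp).add (e1 0 hq)),
      f1 (e0 hs).neg, f2 ((e0 hr).add (e1 0 hs))⟩, ?_⟩
    intro A B
    have hA := det_eq A
    simp only [letterMat, hW]
    simp only [if_true, Fin.zero_eta, Matrix.cons_val_zero, ev_add, ev_mul,
      ev_neg, ev_X0]
    rw [tr_eq A]
    ext i j
    fin_cases i <;> fin_cases j <;>
      simp [Matrix.mul_apply, Fin.sum_univ_two] <;>
      first
      | linear_combination (-(ev A B q) - ev A B s * (mat B 0 0)) * hA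
      | linear_combination (ev A B q + ev A B s * (mat B 0 0)) * hA
      | linear_combination (-(ev A B s * (mat B 0 1))) * hA
      | linear_combination (ev A B s * (mat B 0 1)) * hA
      | linear_combination (-(ev A B s * (mat B 1 0))) * hA
      | linear_combination (ev A B s * (mat B 1 0)) * hA
      | linear_combination (-(ev A B q) - ev A B s * (mat B 1 1)) * hA
  · -- the letter `b⁻¹`
    refine ⟨X 1 * p + -(X 2 * q) + X 0 * (X 1 * q) + r + X 0 * s, -s,
      -p + -(X 0 * q) + -(X 2 * s), X 1 * s + q,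
      ⟨f5 (((((e1 1 hp).add (e1 2 hq).neg).add (e2 0 1 hq)).add (e0 hr)).add (e1 0 hs)),
      f1 (e0 hs).neg, f3 (((e0 hp).neg.add (e1 0 hq).neg).add (e1 2 hs).neg),
      f2 ((e1 1 hs).add (e0 hq))⟩, ?_⟩
    intro A B
    have hB := det_eq B
    simp only [letterMat, hW]
    simp only [Bool.false_eq_true, if_false, Fin.mk_one, Matrix.cons_val_one, ev_add,
      ev_mul, ev_neg, ev_X0, ev_X1, ev_X2]
    rw [mat_inv, tr_mul_eq A B, tr_eq A, tr_eq B]
    ext i j
    fin_cases i <;> fin_cases j <;>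
      simp [Matrix.mul_apply, Fin.sum_univ_two] <;>
      first
      | linear_combination (ev A B r + ev A B s * mat A 1 1) * hB
      | linear_combination (-(ev A B s * mat A 0 1)) * hB
      | linear_combination (-(ev A B s * mat A 1 0)) * hB
      | linear_combination (ev A B r + ev A B s * mat A 0 0) * hB
  · -- the letter `b`
    refine ⟨X 2 * q + -(X 0 * (X 1 * q)) + -r + -(X 0 * s), X 1 * q + s,
      p + X 0 * q + X 1 * r + X 2 * s, -q,
      ⟨f4 ((((e1 2 hq).add (e2 0 1 hq).neg).add (e0 hr).neg).add (e1 0 hs).neg),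
      f2 ((e1 1 hq).add (e0 hs)), f4 ((((e0 hp).add (e1 0 hq)).add (e1 1 hr)).add (e1 2 hs)),
      f1 (e0 hq).neg⟩, ?_⟩
    intro A B
    have hB := det_eq B
    simp only [letterMat, hW]
    simp only [if_true, Fin.mk_one, Matrix.cons_val_one, ev_add,
      ev_mul, ev_neg, ev_X0, ev_X1, ev_X2]
    rw [tr_mul_eq A B, tr_eq A, tr_eq B]
    ext i j
    fin_cases i <;> fin_cases j <;>
      simp [Matrix.mul_apply, Fin.sum_univ_two] <;>
      first
      | linear_combination (-(ev A B r) - ev A B s * mat A 1 1) * hB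
      | linear_combination ((ev A B s * mat A 0 1)) * hB
      | linear_combination ((ev A B s * mat A 1 0)) * hB
      | linear_combination (-(ev A B r) - ev A B s * mat A 0 0) * hB

/-- The value of a list of letters. -/
noncomputable def listVal (L : List (Fin 2 × Bool)) (A B : SL2) : SL2 :=
  (L.map fun l => letterMat l A B).prod

lemma rep_list (L : List (Fin 2 × Bool)) : Rep L.length fun A B => mat (listVal L A B) := by
  induction L with
  | nil => simpa [listVal, mat] using rep_one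
  | cons l L ih =>
    have := ih.mul l
    simpa [listVal, mat] using this

lemma evalWord_mk (L : List (Fin 2 × Bool)) (A B : SL2) :
    evalWord (FreeGroup.mk L) A B = listVal L A B := by
  unfold evalWord listVal
  rw [FreeGroup.lift_mk]
  congr 1
  refine List.map_congr_left fun l _ => ?_
  unfold letterMat
  cases l.2 <;> simp

lemma trace_comb (A B : SL2) (p q r s : ℂ) :
    Matrix.trace (p • (1 : Matrix (Fin 2) (Fin 2) ℂ) + q • mat A + r • mat B +
      s • (mat A * mat B)) = 2 * p + q * tr A + r * tr B + s * tr (A * B) := by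
  rw [tr_mul_eq, tr_eq, tr_eq, Matrix.trace_fin_two]
  simp [Matrix.mul_apply, Fin.sum_univ_two]
  ring

/-- Every word of length `n` has a Fricke polynomial with good bounds. -/
lemma exists_fricke (L : List (Fin 2 × Bool)) :
    ∃ f, IsFricke (FreeGroup.mk L) f ∧ Bd (2 * L.length + 1) (5 * 5 ^ L.length) f := by
  obtain ⟨p, q, r, s, ⟨hp, hq, hr, hs⟩, hW⟩ := rep_list L
  refine ⟨p + p + X 0 * q + X 1 * r + X 2 * s, ?_, ?_⟩
  · intro A B
    rw [evalWord_mk]
    unfold tr
    have := hW A B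
    simp only [mat] at this
    rw [this]
    have h2 := trace_comb A B (ev A B p) (ev A B q) (ev A B r) (ev A B s)
    simp only [mat] at h2
    rw [h2]
    change _ = ev A B (p + p + X 0 * q + X 1 * r + X 2 * s)
    simp only [ev_add, ev_mul, ev_X0, ev_X1, ev_X2]
    ring
  · have h1 : 2 * L.length ≤ 2 * L.length + 1 := by omega
    refine (((((hp.mono h1 le_rfl).add (hp.mono h1 le_rfl)).add (hq.X_mul 0)).add
      (hr.X_mul 1)).add (hs.X_mul 2)).mono le_rfl ?_
    omega

/-! ### Uniqueness -/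

lemma exists_traces (x y z : ℂ) : ∃ A B : SL2, tr A = x ∧ tr B = y ∧ tr (A * B) = z := by
  obtain ⟨t, ht⟩ : ∃ t : ℂ, t ^ 2 - z * t + 1 = 0 := by
    obtain ⟨u, hu⟩ := IsAlgClosed.exists_pow_nat_eq (z ^ 2 / 4 - 1) (n := 2) (by norm_num)
    exact ⟨z / 2 + u, by linear_combination hu⟩
  have ht0 : t ≠ 0 := by
    rintro rfl
    norm_num at ht
  refine ⟨⟨!![x, -1; 1, 0], by simp [Matrix.det_fin_two]⟩,
    ⟨!![0, t; -t⁻¹, y], by simp [Matrix.det_fin_two, ht0]⟩, ?_, ?_, ?_⟩
  · simp [tr, Matrix.trace_fin_two]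
  · simp [tr, Matrix.trace_fin_two]
  · refine (tr_mul_eq _ _).trans ?_
    simp [mat]
    field_simp
    linear_combination ht

lemma fricke_unique {w : FreeGroup (Fin 2)} {f g : MvPolynomial (Fin 3) ℤ} (hf : IsFricke w f)
    (hg : IsFricke w g) : f = g := by
  have h1 : map (Int.castRingHom ℂ) f = map (Int.castRingHom ℂ) g := by
    refine MvPolynomial.funext fun v => ?_
    obtain ⟨A, B, hA, hB, hAB⟩ := exists_traces (v 0) (v 1) (v 2)
    have hv : v = ![tr A, tr B, tr (A * B)] := by
      ext i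
      fin_cases i <;> simp [hA, hB, hAB]
    rw [eval_map, eval_map]
    have h := (hf A B).symm.trans (hg A B)
    rw [← hv] at h
    simpa [aeval_def] using h
  exact map_injective _ Int.cast_injective h1

lemma isFricke_of_isConj {v w : FreeGroup (Fin 2)} (h : IsConj w v)
    {f : MvPolynomial (Fin 3) ℤ} (hf : IsFricke w f) : IsFricke v f := by
  intro A B
  rw [← hf A B]
  obtain ⟨c, hc⟩ := isConj_iff.1 h
  unfold evalWord tr
  rw [← hc, map_mul, map_mul, map_inv]
  have : ∀ P Q : SL2, Matrix.trace (mat (P * Q * P⁻¹)) = Matrix.trace (mat Q) := by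
    intro P Q
    simp only [mat]
    rw [Matrix.SpecialLinearGroup.coe_mul, Matrix.SpecialLinearGroup.coe_mul,
      Matrix.trace_mul_comm, ← mul_assoc, ← Matrix.SpecialLinearGroup.coe_mul, inv_mul_cancel]
    simp
  exact this _ _

lemma existsUnique_fricke (w : FreeGroup (Fin 2)) : ∃! f, IsFricke w f := by
  obtain ⟨f, hf, -⟩ := exists_fricke w.toWord
  rw [FreeGroup.mk_toWord] at hf
  exact ⟨f, hf, fun g hg => fricke_unique hg hf⟩

lemma size_bound {n s : ℕ} (hs : s ∈ sizes n) : s ≤ (2 * n + 2) ^ 3 * (3 * (n + 1) + 1) := by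
  obtain ⟨w, f, ⟨v, hwv, -, hv⟩, hf, rfl⟩ := hs
  have hf' := isFricke_of_isConj hwv hf
  obtain ⟨g, hg, hgb⟩ := exists_fricke v.toWord
  rw [FreeGroup.mk_toWord] at hg
  rw [fricke_unique hf' hg]
  rw [hv] at hgb
  refine hgb.bitSize_le.trans ?_
  have h1 : 5 * 5 ^ n = 5 ^ (n + 1) := by ring
  rw [h1]
  exact Nat.mul_le_mul_left _ (size_pow_le (n + 1))

/-! ### The words `a ^ M b ^ K (a b) ^ L` -/

/-- The polynomials with `A ^ (m + 1) = U (m + 1) A - U m` for `A ∈ SL(2)`. -/
noncomputable def U : ℕ → Polynomial ℤ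
  | 0 => 0
  | 1 => 1
  | (m + 2) => Polynomial.X * U (m + 1) - U m

lemma U_coeff_zero_of_even (m i : ℕ) (h : (m + i) % 2 = 0) : (U m).coeff i = 0 := by
  induction m using Nat.strong_induction_on generalizing i with
  | _ m ih =>
    match m, ih with
    | 0, _ => simp [U]
    | 1, _ =>
      have : i ≠ 0 := by
        rintro rfl
        omega
      simp [U, Polynomial.coeff_one, this]
    | (m + 2), ih =>
      rw [U, Polynomial.coeff_sub, ih m (by omega) i (by omega)]
      cases i with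
      | zero => simp
      | succ i =>
        rw [Polynomial.coeff_X_mul, ih (m + 1) (by omega) i (by omega)]
        simp

lemma U_coeff (i a : ℕ) : (U (i + 1 + 2 * a)).coeff i = (-1) ^ a * ((i + a).choose a : ℤ) := by
  induction a generalizing i with
  | zero =>
    induction i with
    | zero => simp [U]
    | succ i ih =>
      have h0 : (U i).coeff (i + 1) = 0 := by
        have : ∀ j k : ℕ, j < k → (U j).coeff k = 0 ∧ (U (j + 1)).coeff (k + 1) = 0 := by
          intro j
          induction j with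
          | zero => intro k hk; simp [U, Polynomial.coeff_one]
          | succ j ih =>
            intro k hk
            refine ⟨?_, ?_⟩
            · obtain ⟨k, rfl⟩ : ∃ k', k = k' + 1 := ⟨k - 1, by omega⟩
              exact (ih k (by omega)).2
            · rw [U, Polynomial.coeff_sub, Polynomial.coeff_X_mul]
              obtain ⟨k, rfl⟩ : ∃ k', k = k' + 1 := ⟨k - 1, by omega⟩
              rw [(ih k (by omega)).2, (ih (k + 1 + 1) (by omega)).1]
              simp
        exact (this i (i + 1) (by omega)).1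
      simp only [mul_zero, add_zero, Nat.choose_zero_right, pow_zero] at ih ⊢
      rw [U, Polynomial.coeff_sub, Polynomial.coeff_X_mul, h0, ih]
      simp
  | succ a ih =>
    induction i with
    | zero =>
      have h1 : (0 : ℕ) + 1 + 2 * (a + 1) = (0 + 1 + 2 * a) + 2 := by ring
      rw [h1, U, Polynomial.coeff_sub, ih 0]
      simp [pow_succ]
    | succ i ihi =>
      have h1 : i + 1 + 1 + 2 * (a + 1) = (i + 1 + 1 + 2 * a) + 2 := by ring
      have h2 : i + 1 + 1 + 2 * a + 1 = i + 1 + 2 * (a + 1) := by ring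
      rw [h1, U, Polynomial.coeff_sub, Polynomial.coeff_X_mul, h2, ihi, ih (i + 1)]
      have h3 : i + 1 + (a + 1) = (i + 1 + a) + 1 := by ring
      have h4 : i + (a + 1) = i + 1 + a := by ring
      rw [h3, Nat.choose_succ_succ, h4]
      push_cast
      ring

/-- A product of three univariate polynomials in the three variables. -/
noncomputable def tri (F G H : Polynomial ℤ) : MvPolynomial (Fin 3) ℤ :=
  Polynomial.aeval (X 0 : MvPolynomial (Fin 3) ℤ) F *
    Polynomial.aeval (X 1 : MvPolynomial (Fin 3) ℤ) G *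
    Polynomial.aeval (X 2 : MvPolynomial (Fin 3) ℤ) H

/-- The exponent vector `(i, j, k)`. -/
noncomputable def mon (i j k : ℕ) : Fin 3 →₀ ℕ :=
  Finsupp.single 0 i + Finsupp.single 1 j + Finsupp.single 2 k

lemma mon_apply (i j k : ℕ) : mon i j k 0 = i ∧ mon i j k 1 = j ∧ mon i j k 2 = k := by
  simp [mon]

lemma mon_inj {i j k i' j' k' : ℕ} (h : mon i j k = mon i' j' k') : i = i' ∧ j = j' ∧ k = k' := by
  obtain ⟨h0, h1, h2⟩ := mon_apply i j k
  obtain ⟨h0', h1', h2'⟩ := mon_apply i' j' k'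
  rw [h] at h0 h1 h2
  exact ⟨h0.symm.trans h0', h1.symm.trans h1', h2.symm.trans h2'⟩

lemma coeff_tri (F G H : Polynomial ℤ) (i j k : ℕ) :
    (tri F G H).coeff (mon i j k) = F.coeff i * G.coeff j * H.coeff k := by
  induction F using Polynomial.induction_on' with
  | add F F' hF hF' =>
    simp only [tri, map_add, add_mul, coeff_add, Polynomial.coeff_add] at hF hF' ⊢
    rw [hF, hF']
  | monomial a r =>
    induction G using Polynomial.induction_on' with
    | add G G' hG hG' =>
      simp only [tri, map_add, add_mul, mul_add, coeff_add, Polynomial.coeff_add] at hG hG' ⊢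
      rw [hG, hG']
    | monomial b t =>
      induction H using Polynomial.induction_on' with
      | add H H' hH hH' =>
        simp only [tri, map_add, mul_add, coeff_add, Polynomial.coeff_add] at hH hH' ⊢
        rw [hH, hH']
      | monomial c u =>
        have h1 : tri (Polynomial.monomial a r) (Polynomial.monomial b t)
            (Polynomial.monomial c u) = monomial (mon a b c) (r * t * u) := by
          unfold tri mon
          rw [Polynomial.aeval_monomial, Polynomial.aeval_monomial, Polynomial.aeval_monomial]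
          simp only [algebraMap_eq, X_pow_eq_monomial, C_mul_monomial, mul_one, monomial_mul]
        rw [h1, coeff_monomial, Polynomial.coeff_monomial, Polynomial.coeff_monomial,
          Polynomial.coeff_monomial]
        by_cases h : mon a b c = mon i j k
        · obtain ⟨rfl, rfl, rfl⟩ := mon_inj h
          simp
        · rw [if_neg h]
          by_cases ha : a = i
          · by_cases hb : b = j
            · by_cases hc : c = k
              · subst ha hb hc
                exact absurd rfl h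
              · simp [hc]
            · simp [hb]
          · simp [ha]

/-- The Fricke polynomial of `a ^ (M + 1) b ^ (K + 1) (a b) ^ (L + 1)`. -/
noncomputable def fr (M K L : ℕ) : MvPolynomial (Fin 3) ℤ :=
  tri (U (M + 1)) (U (K + 1)) (Polynomial.X * (Polynomial.X * U (L + 1)))
    - 2 * tri (U (M + 1)) (U (K + 1)) (U (L + 1))
    - tri (U (M + 1)) (U (K + 1)) (Polynomial.X * U L)
    - tri (Polynomial.X * U (M + 1)) (U K) (Polynomial.X * U (L + 1))
    + tri (U (M + 1)) (Polynomial.X * U K) (U (L + 1))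
    - tri (U M) (Polynomial.X * U (K + 1)) (Polynomial.X * U (L + 1))
    + tri (Polynomial.X * U M) (U (K + 1)) (U (L + 1))
    + tri (Polynomial.X * U (M + 1)) (U K) (U L)
    + tri (U M) (Polynomial.X * U (K + 1)) (U L)
    + tri (U M) (U K) (Polynomial.X * U (L + 1))
    - 2 * tri (U M) (U K) (U L)

lemma ev_tri (A B : SL2) (F G H : Polynomial ℤ) : ev A B (tri F G H) =
    Polynomial.aeval (tr A) F * Polynomial.aeval (tr B) G * Polynomial.aeval (tr (A * B)) H := by
  unfold tri
  rw [ev_mul, ev_mul]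
  have h : ∀ (i : Fin 3) (F : Polynomial ℤ), ev A B (Polynomial.aeval (X i) F) =
      Polynomial.aeval (ev A B (X i)) F := fun i F =>
    (Polynomial.aeval_algHom_apply (aeval ![tr A, tr B, tr (A * B)]) _ _).symm
  rw [h, h, h, ev_X0, ev_X1, ev_X2]

lemma mat_pow (A : SL2) (m : ℕ) : mat (A ^ (m + 1)) =
    Polynomial.aeval (tr A) (U (m + 1)) • mat A -
      Polynomial.aeval (tr A) (U m) • (1 : Matrix (Fin 2) (Fin 2) ℂ) := by
  induction m with
  | zero => simp [U]
  | succ m ih =>
    have h1 : mat (A ^ (m + 1 + 1)) = mat A * mat (A ^ (m + 1)) := by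
      rw [pow_succ']
      exact Matrix.SpecialLinearGroup.coe_mul _ _
    have h2 : mat A * mat A = tr A • mat A - (1 : Matrix (Fin 2) (Fin 2) ℂ) := by
      have hA := det_eq A
      rw [tr_eq A]
      ext i j
      fin_cases i <;> fin_cases j <;> simp [Matrix.mul_apply, Fin.sum_univ_two] <;>
        first
        | linear_combination hA
        | linear_combination -hA
        | ring
    rw [h1, ih, U, map_sub, map_mul, Polynomial.aeval_X, mul_sub, Matrix.mul_smul,
      Matrix.mul_smul, h2, mul_one, smul_sub, sub_smul, smul_smul, mul_comm (tr A)]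
    abel

/-- The word `a ^ (M + 1) b ^ (K + 1) (a b) ^ (L + 1)`. -/
def wd (M K L : ℕ) : FreeGroup (Fin 2) :=
  FreeGroup.of 0 ^ (M + 1) * FreeGroup.of 1 ^ (K + 1) *
    (FreeGroup.of 0 * FreeGroup.of 1) ^ (L + 1)

lemma tr_sq (C : SL2) : Matrix.trace (mat C * mat C) = tr C * tr C - 2 := by
  have hC := det_eq C
  rw [tr_eq, Matrix.trace_fin_two]
  simp [Matrix.mul_apply, Fin.sum_univ_two]
  linear_combination (-2 : ℂ) * hC

lemma tr_AAB (A B : SL2) : Matrix.trace (mat A * (mat A * mat B)) =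
    tr A * tr (A * B) - tr B := by
  have hA := det_eq A
  rw [tr_mul_eq, tr_eq, tr_eq, Matrix.trace_fin_two]
  simp [Matrix.mul_apply, Fin.sum_univ_two]
  linear_combination (-(mat B 0 0 + mat B 1 1)) * hA

lemma tr_BAB (A B : SL2) : Matrix.trace (mat B * (mat A * mat B)) =
    tr B * tr (A * B) - tr A := by
  have hB := det_eq B
  rw [tr_mul_eq, tr_eq, tr_eq, Matrix.trace_fin_two]
  simp [Matrix.mul_apply, Fin.sum_univ_two]
  linear_combination (-(mat A 0 0 + mat A 1 1)) * hB

lemma trace_prod (A B : SL2) (p q r s t u : ℂ) :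
    Matrix.trace ((p • mat A - q • (1 : Matrix (Fin 2) (Fin 2) ℂ)) *
      (r • mat B - s • (1 : Matrix (Fin 2) (Fin 2) ℂ)) *
      (t • (mat A * mat B) - u • (1 : Matrix (Fin 2) (Fin 2) ℂ))) =
    p * r * (tr (A * B) * (tr (A * B) * t)) - 2 * (p * r * t) - p * r * (tr (A * B) * u)
      - tr A * p * s * (tr (A * B) * t) + p * (tr B * s) * t - q * (tr B * r) * (tr (A * B) * t)
      + tr A * q * r * t + tr A * p * s * u + q * (tr B * r) * u + q * s * (tr (A * B) * t)
      - 2 * (q * s * u) := by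
  have h1 : Matrix.trace (mat A * (mat B * (mat A * mat B))) = tr (A * B) * tr (A * B) - 2 := by
    rw [← tr_sq (A * B), show mat (A * B) = mat A * mat B from
      Matrix.SpecialLinearGroup.coe_mul _ _, mul_assoc]
  have h2 : Matrix.trace (mat A * mat B) = tr (A * B) := by
    unfold tr mat
    rw [Matrix.SpecialLinearGroup.coe_mul]
  have h3 : Matrix.trace (mat A) = tr A := rfl
  have h4 : Matrix.trace (mat B) = tr B := rfl
  have h5 : Matrix.trace (1 : Matrix (Fin 2) (Fin 2) ℂ) = 2 := by simp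
  simp only [sub_mul, mul_sub, Matrix.smul_mul, Matrix.mul_smul, mul_one, one_mul,
    Matrix.trace_sub, Matrix.trace_smul, smul_eq_mul, mul_assoc, h1, h2, tr_AAB, tr_BAB, h3, h4,
    h5]
  ring

lemma isFricke_fr (M K L : ℕ) : IsFricke (wd M K L) (fr M K L) := by
  intro A B
  have h1 : evalWord (wd M K L) A B = A ^ (M + 1) * B ^ (K + 1) * (A * B) ^ (L + 1) := by
    unfold evalWord wd
    simp
  rw [h1]
  have h2 : tr (A ^ (M + 1) * B ^ (K + 1) * (A * B) ^ (L + 1)) =
      Matrix.trace (mat (A ^ (M + 1)) * mat (B ^ (K + 1)) * mat ((A * B) ^ (L + 1))) := by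
    unfold tr mat
    rw [Matrix.SpecialLinearGroup.coe_mul, Matrix.SpecialLinearGroup.coe_mul]
  have h3 : mat (A * B) = mat A * mat B := Matrix.SpecialLinearGroup.coe_mul _ _
  rw [h2, mat_pow, mat_pow, mat_pow, h3, trace_prod]
  change _ = ev A B (fr M K L)
  unfold fr
  simp only [ev_add, ev_sub, ev_mul, ev_tri, map_mul, Polynomial.aeval_X]
  have h4 : ev A B 2 = 2 := by
    unfold ev
    exact map_ofNat _ 2
  rw [h4]

/-- The coefficients of one parity class. -/
lemma coeff_fr (i j k a b c : ℕ) :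
    (fr (i + 2 + 2 * a) (j + 2 + 2 * b) (k + 2 + 2 * c)).coeff (mon (i + 2) (j + 2) (k + 2)) =
      (-1) ^ (a + b + c) * (-(((i + 2 + a).choose a : ℤ) * (j + 2 + b).choose b *
        ((k + (c + 1)).choose (c + 1) + 2 * (k + 2 + c).choose c + (k + 1 + c).choose c)) +
        (i + 2 + a).choose a * (j + 1 + b).choose b * (k + 2 + c).choose c +
        (i + 1 + a).choose a * (j + 2 + b).choose b * (k + 2 + c).choose c) := by
  have g1 : ∀ i a : ℕ, (U (i + 2 + 2 * a + 1)).coeff (i + 2) =
      (-1) ^ a * ((i + 2 + a).choose a : ℤ) := fun i a => by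
    rw [show i + 2 + 2 * a + 1 = i + 2 + 1 + 2 * a by ring, U_coeff]
  have g2 : ∀ i a : ℕ, (U (i + 2 + 2 * a)).coeff (i + 2) = 0 := fun i a =>
    U_coeff_zero_of_even _ _ (by omega)
  have g3 : ∀ i a : ℕ, (Polynomial.X * U (i + 2 + 2 * a + 1)).coeff (i + 2) = 0 := fun i a => by
    rw [Polynomial.coeff_X_mul]
    exact U_coeff_zero_of_even _ _ (by omega)
  have g4 : ∀ i a : ℕ, (Polynomial.X * U (i + 2 + 2 * a)).coeff (i + 2) =
      (-1) ^ a * ((i + 1 + a).choose a : ℤ) := fun i a => by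
    rw [Polynomial.coeff_X_mul, show i + 2 + 2 * a = i + 1 + 1 + 2 * a by ring, U_coeff]
  have g5 : ∀ i a : ℕ, (Polynomial.X * (Polynomial.X * U (i + 2 + 2 * a + 1))).coeff (i + 2) =
      (-1) ^ (a + 1) * ((i + (a + 1)).choose (a + 1) : ℤ) := fun i a => by
    rw [Polynomial.coeff_X_mul, Polynomial.coeff_X_mul,
      show i + 2 + 2 * a + 1 = i + 1 + 2 * (a + 1) by ring, U_coeff]
  have h2 : ∀ (f : MvPolynomial (Fin 3) ℤ) m, (2 * f).coeff m = 2 * f.coeff m := by
    intro f m
    have : (2 : MvPolynomial (Fin 3) ℤ) = C 2 := by simp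
    rw [this, coeff_C_mul]
  unfold fr
  simp only [coeff_sub, coeff_add, h2, coeff_tri, g1, g2, g3, g4, g5]
  ring

lemma choose_lower (i a : ℕ) (h : a ≤ i) : 2 ^ a ≤ (i + a).choose a := by
  induction a with
  | zero => simp
  | succ a ih =>
    have h1 := ih (by omega)
    have h2 := Nat.add_one_mul_choose_eq (i + a) a
    have h3 : (2 * (a + 1)) * 2 ^ a ≤ (i + a + 1) * (i + a).choose a :=
      Nat.mul_le_mul (by omega) h1
    have h4 : 2 ^ (a + 1) * (a + 1) ≤ (i + a + 1).choose (a + 1) * (a + 1) := by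
      calc 2 ^ (a + 1) * (a + 1) = (2 * (a + 1)) * 2 ^ a := by ring
        _ ≤ (i + a + 1) * (i + a).choose a := h3
        _ = _ := h2
    exact Nat.le_of_mul_le_mul_right h4 (by omega)

lemma natAbs_coeff_ge (i j k a b c : ℕ) (h : a ≤ i + 2) : 2 ^ a ≤
    ((fr (i + 2 + 2 * a) (j + 2 + 2 * b) (k + 2 + 2 * c)).coeff
      (mon (i + 2) (j + 2) (k + 2))).natAbs := by
  rw [coeff_fr, Int.natAbs_mul, Int.natAbs_pow]
  simp only [Int.natAbs_neg, Int.natAbs_one, one_pow, one_mul]
  have h1 : 2 ^ a ≤ (i + 2 + a).choose a := choose_lower (i + 2) a h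
  have h2 : (i + 1 + a).choose a ≤ (i + 2 + a).choose a := Nat.choose_le_choose a (by omega)
  have h3 : (j + 1 + b).choose b ≤ (j + 2 + b).choose b := Nat.choose_le_choose b (by omega)
  have h4 : 0 < (k + 1 + c).choose c := Nat.choose_pos (by omega)
  have h5 : 0 < (j + 2 + b).choose b := Nat.choose_pos (by omega)
  generalize (i + 2 + a).choose a = u at *
  generalize (i + 1 + a).choose a = u' at *
  generalize (j + 2 + b).choose b = v at *
  generalize (j + 1 + b).choose b = v' at *
  generalize (k + 2 + c).choose c = w at *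
  generalize (k + 1 + c).choose c = w' at *
  generalize (k + (c + 1)).choose (c + 1) = w'' at *
  have h6 : u * v' * w ≤ u * v * w := by gcongr
  have h7 : u' * v * w ≤ u * v * w := by gcongr
  have h8 : u ≤ u * v * w' := by
    calc u = u * 1 * 1 := by ring
      _ ≤ u * v * w' := by gcongr <;> omega
  have h6' : (u : ℤ) * v' * w ≤ u * v * w := by exact_mod_cast h6
  have h7' : (u' : ℤ) * v * w ≤ u * v * w := by exact_mod_cast h7
  have h8' : (u : ℤ) ≤ u * v * w' := by exact_mod_cast h8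
  have h9 : (0 : ℤ) ≤ u * v * w'' := by positivity
  have h1' : ((2 ^ a : ℕ) : ℤ) ≤ u := by exact_mod_cast h1
  have key : ((2 ^ a : ℕ) : ℤ) ≤
      -(-((u : ℤ) * v * (w'' + 2 * w + w')) + u * v' * w + u' * v * w) := by
    nlinarith [h6', h7', h8', h9, h1']
  omega

/-! ### The lower bound -/

lemma isReduced_of_true (L : List (Fin 2 × Bool)) (h : ∀ l ∈ L, l.2 = true) :
    FreeGroup.IsCyclicallyReduced L := by
  refine ⟨?_, ?_⟩
  · unfold FreeGroup.IsReduced
    induction L with
    | nil => exact List.isChain_nil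
    | cons a L ih =>
      cases L with
      | nil => exact List.isChain_singleton a
      | cons b L =>
        rw [List.isChain_cons_cons]
        refine ⟨fun _ => ?_, ih fun l hl => h l (List.mem_cons_of_mem _ hl)⟩
        rw [h a (by simp), h b (by simp)]
  · intro a ha b hb _
    rw [h a (List.mem_of_mem_getLast? ha), h b (List.mem_of_mem_head? hb)]

/-- The list of letters of `a ^ (M + 1) b ^ (K + 1) (a b) ^ (L + 1)`. -/
def wdList (M K L : ℕ) : List (Fin 2 × Bool) :=
  List.replicate (M + 1) (0, true) ++ List.replicate (K + 1) (1, true) ++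
    (List.replicate (L + 1) [((0 : Fin 2), true), (1, true)]).flatten

lemma mk_wdList (M K L : ℕ) : FreeGroup.mk (wdList M K L) = wd M K L := by
  unfold wdList wd
  rw [← FreeGroup.mul_mk, ← FreeGroup.mul_mk]
  have h1 : ∀ (n : ℕ) (x : Fin 2), FreeGroup.mk (List.replicate n (x, true)) =
      FreeGroup.of x ^ n := by
    intro n x
    induction n with
    | zero => rfl
    | succ n ih => rw [List.replicate_succ, pow_succ', ← ih]; rfl
  have h2 : ∀ n : ℕ, FreeGroup.mk (List.replicate n [((0 : Fin 2), true), (1, true)]).flatten =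
      (FreeGroup.of 0 * FreeGroup.of 1) ^ n := by
    intro n
    induction n with
    | zero => rfl
    | succ n ih =>
      rw [List.replicate_succ, List.flatten_cons, pow_succ', ← ih]
      rfl
  rw [h1, h1, h2]

lemma length_wdList (M K L : ℕ) : (wdList M K L).length = M + K + 2 * L + 4 := by
  unfold wdList
  simp
  ring

lemma hasCycLength_wd (M K L : ℕ) : HasCycLength (wd M K L) (M + K + 2 * L + 4) := by
  have h : ∀ l ∈ wdList M K L, l.2 = true := by
    intro l hl
    unfold wdList at hl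
    simp only [List.mem_append, List.mem_replicate, List.mem_flatten] at hl
    rcases hl with (⟨-, rfl⟩ | ⟨-, rfl⟩) | ⟨l', ⟨-, rfl⟩, hl⟩
    · rfl
    · rfl
    · simp only [List.mem_cons, List.not_mem_nil, or_false] at hl
      rcases hl with rfl | rfl <;> rfl
  have hc := isReduced_of_true _ h
  refine ⟨wd M K L, IsConj.refl _, ?_, ?_⟩
  · rw [← mk_wdList, FreeGroup.toWord_mk, hc.1.reduce_eq]
    exact hc
  · rw [← mk_wdList, FreeGroup.toWord_mk, hc.1.reduce_eq, length_wdList]

/-- Many coefficients are large. -/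
lemma bitSize_fr (M K L t : ℕ) (hM : 6 * t + 3 ≤ M) (hK : 6 * t + 3 ≤ K) (hL : 6 * t + 3 ≤ L) :
    t ^ 4 ≤ bitSize (fr M K L) := by
  classical
  unfold bitSize
  set T : Finset (ℕ × ℕ × ℕ) := Finset.range t ×ˢ Finset.range t ×ˢ Finset.range t with hT
  set φ : ℕ × ℕ × ℕ → (Fin 3 →₀ ℕ) := fun x =>
    mon (M - 2 * (t + x.1)) (K - 2 * x.2.1) (L - 2 * x.2.2) with hφ
  have hbig : ∀ x ∈ T, 2 ^ t ≤ ((fr M K L).coeff (φ x)).natAbs := by
    rintro ⟨a, b, c⟩ hx
    simp only [hT, Finset.mem_product, Finset.mem_range] at hx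
    obtain ⟨ha, hb, hc⟩ := hx
    obtain ⟨i, hi⟩ : ∃ i, M = i + 2 + 2 * (t + a) := ⟨M - 2 - 2 * (t + a), by omega⟩
    obtain ⟨j, hj⟩ : ∃ j, K = j + 2 + 2 * b := ⟨K - 2 - 2 * b, by omega⟩
    obtain ⟨k, hk⟩ : ∃ k, L = k + 2 + 2 * c := ⟨L - 2 - 2 * c, by omega⟩
    have h1 := natAbs_coeff_ge i j k (t + a) b c (by omega)
    have h2 : M - 2 * (t + a) = i + 2 := by omega
    have h3 : K - 2 * b = j + 2 := by omega
    have h4 : L - 2 * c = k + 2 := by omega
    simp only [hφ, h2, h3, h4]
    rw [hi, hj, hk]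
    exact (Nat.pow_le_pow_right (by norm_num) (by omega)).trans h1
  have hinj : Set.InjOn φ T := by
    rintro ⟨a, b, c⟩ hx ⟨a', b', c'⟩ hx' heq
    simp only [hT, Finset.coe_product, Set.mem_prod, Finset.mem_coe, Finset.mem_range] at hx hx'
    obtain ⟨h1, h2, h3⟩ := mon_inj heq
    simp only at h1 h2 h3 hx hx'
    simp only [Prod.mk.injEq]
    omega
  calc t ^ 4 = T.card * t := by
        rw [hT, Finset.card_product, Finset.card_product, Finset.card_range]
        ring
    _ = ∑ x ∈ T, t := by rw [Finset.sum_const, smul_eq_mul]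
    _ ≤ ∑ x ∈ T, ((fr M K L).coeff (φ x)).natAbs.size := by
        refine Finset.sum_le_sum fun x hx => ?_
        have := Nat.size_le_size (hbig x hx)
        rw [Nat.size_pow] at this
        omega
    _ = ∑ m ∈ T.image φ, ((fr M K L).coeff m).natAbs.size := by
        rw [Finset.sum_image hinj]
    _ ≤ ∑ m ∈ (fr M K L).support, ((fr M K L).coeff m).natAbs.size := by
        refine Finset.sum_le_sum_of_subset ?_
        intro m hm
        obtain ⟨x, hx, rfl⟩ := Finset.mem_image.1 hm
        rw [mem_support_iff]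
        intro h0
        have := hbig x hx
        rw [h0] at this
        simp at this

/-- The word `a ^ n` has cyclically reduced length `n`. -/
lemma sizes_nonempty (n : ℕ) : (sizes n).Nonempty := by
  obtain ⟨f, hf, -⟩ := exists_fricke (List.replicate n ((0 : Fin 2), true))
  have hc := isReduced_of_true (List.replicate n ((0 : Fin 2), true)) (by
    intro l hl
    rw [(List.mem_replicate.1 hl).2])
  refine ⟨bitSize f, _, f, ⟨_, IsConj.refl _, ?_, ?_⟩, hf, rfl⟩
  · rw [FreeGroup.toWord_mk, hc.1.reduce_eq]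
    exact hc
  · rw [FreeGroup.toWord_mk, hc.1.reduce_eq, List.length_replicate]

lemma bddAbove_sizes (n : ℕ) : BddAbove (sizes n) := ⟨_, fun _ hs => size_bound hs⟩

/-- **The sparse bit-size of Fricke polynomials has order `n ^ 4`.** Every word has exactly one
Fricke polynomial, the maximum `S(n)` exists for every `n`, and `n ^ 4 / 48 ^ 4 ≤ S(n) ≤ 448 n ^ 4`
for all `n ≥ 100`. -/
theorem result :
    (∀ w : FreeGroup (Fin 2), ∃! f, IsFricke w f) ∧
    (∀ n, IsGreatest (sizes n) (S n)) ∧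
    ∀ n : ℕ, 100 ≤ n →
      1 / 48 ^ 4 * (n : ℝ) ^ 4 ≤ S n ∧ (S n : ℝ) ≤ 448 * (n : ℝ) ^ 4 := by
  refine ⟨existsUnique_fricke,
    fun n => ⟨Nat.sSup_mem (sizes_nonempty n) (bddAbove_sizes n),
      fun s hs => le_csSup (bddAbove_sizes n) hs⟩,
    fun n hn => ⟨?_, ?_⟩⟩
  · -- the lower bound
    obtain ⟨t, ht⟩ : ∃ t, t = (n - 16) / 24 := ⟨_, rfl⟩
    obtain ⟨K, hK⟩ : ∃ K, n = (6 * t + 3) + K + 2 * (6 * t + 3) + 4 :=
      ⟨n - (6 * t + 3) - 2 * (6 * t + 3) - 4, by omega⟩
    have h1 : t ^ 4 ≤ bitSize (fr (6 * t + 3) K (6 * t + 3)) :=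
      bitSize_fr _ _ _ t le_rfl (by omega) le_rfl
    have h2 : bitSize (fr (6 * t + 3) K (6 * t + 3)) ∈ sizes n := by
      refine ⟨_, _, ?_, isFricke_fr (6 * t + 3) K (6 * t + 3), rfl⟩
      have := hasCycLength_wd (6 * t + 3) K (6 * t + 3)
      rwa [← hK] at this
    have h3 : t ^ 4 ≤ S n := h1.trans (le_csSup (bddAbove_sizes n) h2)
    have h4 : (n : ℝ) / 48 ≤ t := by
      have : n ≤ 48 * t := by omega
      have : (n : ℝ) ≤ 48 * t := by exact_mod_cast this
      linarith
    calc 1 / 48 ^ 4 * (n : ℝ) ^ 4 = ((n : ℝ) / 48) ^ 4 := by ring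
      _ ≤ (t : ℝ) ^ 4 := by gcongr
      _ ≤ S n := by exact_mod_cast h3
  · -- the upper bound
    have h1 : S n ≤ (2 * n + 2) ^ 3 * (3 * (n + 1) + 1) :=
      size_bound (Nat.sSup_mem (sizes_nonempty n) (bddAbove_sizes n))
    have h2 : (2 * n + 2) ^ 3 * (3 * (n + 1) + 1) ≤ 448 * n ^ 4 := by
      calc (2 * n + 2) ^ 3 * (3 * (n + 1) + 1) ≤ (4 * n) ^ 3 * (7 * n) :=
            Nat.mul_le_mul (Nat.pow_le_pow_left (by omega) 3) (by omega)
        _ = 448 * n ^ 4 := by ring
    exact_mod_cast h1.trans h2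

end Pool.Agent.Results.MP_9614a6_lc.QuarticGrowth
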